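import Mathlib
import Pool.Agent.Q260.DS.Stm6
import Pool.Agent.Q251.DS.F1

set_option autoImplicit false

/-!
# Project BD, job F2: the theorem for L-functions
-/

namespace Pool.Agent.Q211.BD.F2

open Complex Filter Topology Metric Set
open Pool.Agent.Q260.DS Pool.Agent.Q251.DS.F1
open Pool.Agent.W169.HF H353.E H353.F
open Q240.GS hiding Ob
open scoped ComplexConjugate

theorem ord_shift (G : ℂ → ℂ) (z : ℂ) :
    analyticOrderNatAt (fun z => G (1 / 2 + z)) z = analyticOrderNatAt G (1 / 2 + z) := by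
  have h1 : AnalyticAt ℂ (fun z : ℂ => 1 / 2 + z) z := by fun_prop
  have h2 : deriv (fun z : ℂ => 1 / 2 + z) z ≠ 0 := by
    rw [deriv_const_add, deriv_id'']
    exact one_ne_zero
  have h3 := analyticOrderAt_comp_of_deriv_ne_zero (f := G) h1 h2
  unfold analyticOrderNatAt
  rw [← h3]
  rfl

theorem ord_conj {G : ℂ → ℂ} (hG : Differentiable ℂ G) (z : ℂ) :
    analyticOrderNatAt (fun s => conj (G (conj s))) z = analyticOrderNatAt G (conj z) := by
  have hge : ∀ (G : ℂ → ℂ), Differentiable ℂ G → ∀ (n : ℕ) (z : ℂ),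
      (n : ℕ∞) ≤ analyticOrderAt G z →
      (n : ℕ∞) ≤ analyticOrderAt (fun s => conj (G (conj s))) (conj z) := by
    intro G hG n z h
    have hG' : Differentiable ℂ (fun s => conj (G (conj s))) := fun s =>
      (differentiableAt_conj_conj_iff).2 (hG _)
    rw [natCast_le_analyticOrderAt (hG.analyticAt _)] at h
    rw [natCast_le_analyticOrderAt (hG'.analyticAt _)]
    obtain ⟨g, hg, hev⟩ := h
    have hc : Tendsto (fun w : ℂ => conj w) (𝓝 (conj z)) (𝓝 z) := by
      have : ContinuousAt (fun w : ℂ => conj w) (conj z) := Complex.continuous_conj.continuousAt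
      simpa [ContinuousAt] using this
    refine ⟨fun w => conj (g (conj w)), ?_, ?_⟩
    · have h3 : ∀ᶠ w in 𝓝 z, DifferentiableAt ℂ g w :=
        hg.eventually_analyticAt.mono fun w hw => hw.differentiableAt
      have h4 : ∀ᶠ w in 𝓝 (conj z), DifferentiableAt ℂ (fun w => conj (g (conj w))) w := by
        filter_upwards [hc.eventually h3] with w hw
        exact (differentiableAt_conj_conj_iff).2 hw
      exact Complex.analyticAt_iff_eventually_differentiableAt.2 h4
    · filter_upwards [hc.eventually hev] with w hw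
      rw [hw]
      simp [smul_eq_mul, map_mul, map_pow, map_sub]
  have hG' : Differentiable ℂ (fun s => conj (G (conj s))) := fun s =>
    (differentiableAt_conj_conj_iff).2 (hG _)
  unfold analyticOrderNatAt
  congr 1
  refine le_antisymm ?_ ?_
  · refine ENat.forall_natCast_le_iff_le.1 fun n hn => ?_
    have h1 := hge _ hG' n z hn
    simpa using h1
  · refine ENat.forall_natCast_le_iff_le.1 fun n hn => ?_
    have h1 := hge G hG n (conj z) hn
    simpa using h1

theorem fewL_shift {G : ℂ → ℂ} {θ T x : ℝ} :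
    FewL G θ T x ↔ Few (fun z => G (1 / 2 + z)) (θ - 1 / 2) T 1 x := by
  classical
  constructor
  · intro h Z hZ
    have h1 := h (Z.image fun z => 1 / 2 + z) (by
      intro w hw
      rw [Finset.mem_image] at hw
      obtain ⟨z, hz, rfl⟩ := hw
      obtain ⟨a1, a2, a3, a4⟩ := hZ z hz
      obtain ⟨q1, q2⟩ := half_re' z
      rw [q1, q2]
      exact ⟨a1, by linarith, by linarith, a4⟩)
    rw [Finset.sum_image (fun a _ b _ hab => add_left_cancel hab)] at h1
    refine le_trans (le_of_eq (Finset.sum_congr rfl fun z _ => ?_)) h1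
    rw [ord_shift]
  · intro h Z hZ
    have h1 := h (Z.image fun z => z - 1 / 2) (by
      intro w hw
      rw [Finset.mem_image] at hw
      obtain ⟨z, hz, rfl⟩ := hw
      obtain ⟨a1, a2, a3, a4⟩ := hZ z hz
      obtain ⟨q1, q2⟩ := half_re z
      rw [q1, q2]
      refine ⟨?_, by linarith, by linarith, a4⟩
      change G (1 / 2 + (z - 1 / 2)) = 0
      rw [show (1 / 2 + (z - 1 / 2) : ℂ) = z by ring]
      exact a1)
    rw [Finset.sum_image (fun a _ b _ hab => sub_left_injective hab)] at h1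
    refine le_trans (le_of_eq (Finset.sum_congr rfl fun z _ => ?_)) h1
    rw [ord_shift, show (1 / 2 + (z - 1 / 2) : ℂ) = z by ring]

theorem fewL_conj {G : ℂ → ℂ} (hG : Differentiable ℂ G) {θ T x : ℝ} (h : FewL G θ T x) :
    FewL (fun s => conj (G (conj s))) θ (-T) x := by
  classical
  intro Z hZ
  have h1 := h (Z.image fun z => conj z) (by
    intro w hw
    rw [Finset.mem_image] at hw
    obtain ⟨z, hz, rfl⟩ := hw
    obtain ⟨a1, a2, a3, a4⟩ := hZ z hz
    refine ⟨(map_eq_zero _).1 a1, by rw [conj_re]; exact a2, by rw [conj_re]; exact a3, ?_⟩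
    rw [conj_im]
    have e : -z.im - T = -(z.im - -T) := by ring
    rwa [e, abs_neg])
  rw [Finset.sum_image (fun a _ b _ hab => (starRingEnd ℂ).injective hab)] at h1
  refine le_trans (le_of_eq (Finset.sum_congr rfl fun z _ => ?_)) h1
  rw [ord_conj hG]

theorem cpow_diff {N : ℝ} (hN : 0 < N) : Differentiable ℂ (fun s : ℂ => (N : ℂ) ^ (s / 2)) := by
  have hN0 : (N : ℂ) ≠ 0 := by exact_mod_cast hN.ne'
  intro s
  exact ((differentiableAt_id.div_const 2).const_cpow (Or.inl hN0))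

theorem XX_diff {N : ℝ} (hN : 0 < N) {Λ : ℂ → ℂ} (hΛ : Differentiable ℂ Λ) :
    Differentiable ℂ (XX N Λ) := by
  have h1 : XX N Λ = fun s => (N : ℂ) ^ (s / 2) * Λ s := rfl
  rw [h1]
  exact (cpow_diff hN).mul hΛ

theorem It_diff {f : ℂ → ℂ} (hf : Differentiable ℂ f) : ∀ cs : List ℝ, Differentiable ℂ (It f cs)
  | [] => hf
  | c :: cs => by
    have ih := It_diff hf cs
    have h1 : It f (c :: cs) = fun z => deriv (It f cs) z - (c : ℂ) * It f cs z := rfl
    rw [h1]
    have h2 : Differentiable ℂ (deriv (It f cs)) := by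
      rw [← differentiableOn_univ] at ih ⊢
      exact ih.deriv isOpen_univ
    exact h2.sub (ih.const_mul _)

theorem ord_XX {N : ℝ} (hN : 0 < N) {Λ : ℂ → ℂ} (hΛ : Differentiable ℂ Λ) (z : ℂ) :
    analyticOrderNatAt (XX N Λ) z = analyticOrderNatAt Λ z := by
  have hN0 : (N : ℂ) ≠ 0 := by exact_mod_cast hN.ne'
  have h1 : XX N Λ = (fun s : ℂ => (N : ℂ) ^ (s / 2)) * Λ := rfl
  have h2 : analyticOrderAt (fun s : ℂ => (N : ℂ) ^ (s / 2)) z = 0 := by
    rw [((cpow_diff hN).analyticAt z).analyticOrderAt_eq_zero]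
    rw [Ne, Complex.cpow_eq_zero_iff]
    exact fun h => hN0 h.1
  unfold analyticOrderNatAt
  rw [h1, analyticOrderAt_mul ((cpow_diff hN).analyticAt z) (hΛ.analyticAt z), h2, zero_add]

theorem fewL_XX {N : ℝ} (hN : 0 < N) {Λ : ℂ → ℂ} (hΛ : Differentiable ℂ Λ) {θ T x : ℝ} :
    FewL (XX N Λ) θ T x ↔ FewL Λ θ T x := by
  unfold FewL
  simp only [XX_zero hN, ord_XX hN hΛ]

theorem fewL_mono {G : ℂ → ℂ} {θ T x x' : ℝ} (h : FewL G θ T x) (hx : x ≤ x') : FewL G θ T x' :=
  fun Z hZ => (h Z hZ).trans hx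

theorem few_mono {G : ℂ → ℂ} {θ T R x x' : ℝ} (h : Few G θ T R x) (hx : x ≤ x') :
    Few G θ T R x' := fun Z hZ => (h Z hZ).trans hx

theorem ob_diff {m : ℕ} {N : ℝ} {μ : Fin m → ℂ} {Λ : ℂ → ℂ} (h : Ob N μ Λ) : Differentiable ℂ Λ := by
  obtain ⟨α, ε, d, -⟩ := h
  exact d.entire

theorem t_F2 (h1 : S_SY) (h2 : S_DU) (h3 : S_FQ) : S_F2 := by
  intro m k M A δ η hm hM hA hδ hδ2 hη
  obtain ⟨K, A1, hK, hA1, hSY⟩ := h1 m M 12 hm hM (by norm_num)
  obtain ⟨A2, hA2⟩ : ∃ A2 : ℝ, A2 = max A A1 := ⟨_, rfl⟩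
  have hA21 : A ≤ A2 := by rw [hA2]; exact le_max_left _ _
  have hA22 : A1 ≤ A2 := by rw [hA2]; exact le_max_right _ _
  have hA23 : 1 ≤ A2 := hA.trans hA21
  have hm' : (1 : ℝ) ≤ m := by exact_mod_cast hm
  have hS : ∀ (N : ℝ) (μ : Fin m → ℂ) (Λ : ℂ → ℂ), Ob N μ Λ → (∀ j, ‖μ j‖ ≤ M) →
      Sys K A2 (-12) (ff N Λ) (el N μ) (gg N μ) := fun N μ Λ ho hμ =>
    sys_mono hA1 hA22 (hSY N μ Λ ho hμ)
  have hconjM : ∀ μ : Fin m → ℂ, (∀ j, ‖μ j‖ ≤ M) → ∀ j, ‖conj (μ j)‖ ≤ M := fun μ h j => by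
    rw [Complex.norm_conj]
    exact h j
  have hp : 0 < 1 + 10 * (m : ℝ) := by positivity
  obtain ⟨e', C', he', hC', HFQ⟩ := h3 K A2 δ (η / (1 + 10 * m)) k hK hA23 hδ hδ2 (by positivity)
  have hq : 0 ≤ C' * (1 + 10 * m) := by positivity
  obtain ⟨C, hC⟩ : ∃ C : ℝ, C = 4 * C' + 28 * m + 12 + C' * (1 + 10 * m) := ⟨_, rfl⟩
  have hC1 : 1 ≤ C := by rw [hC]; linarith
  refine ⟨e' / 4, C, by positivity, hC1, ?_⟩
  -- the slope
  have hel : ∀ (N : ℝ) (μ : Fin m → ℂ) (Λ : ℂ → ℂ), Ob N μ Λ → ∀ y : ℝ, C ≤ Real.log (cnd N μ y) →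
      C' ≤ el N μ y ∧ Real.log (cnd N μ y) / 4 ≤ el N μ y ∧
      el N μ y ≤ (1 + 10 * m) * Real.log (cnd N μ y) := by
    intro N μ Λ ho y hy
    obtain ⟨hN, hre, -, -⟩ := ob_N ho
    obtain ⟨e1, e2⟩ := el_bd hN hre y
    refine ⟨by linarith, by linarith, ?_⟩
    nlinarith
  -- heights `≥ 0`
  have half : ∀ (N : ℝ) (μ : Fin m → ℂ) (Λ : ℂ → ℂ), Ob N μ Λ → (∀ j, ‖μ j‖ ≤ M) →
      ∀ cs : List ℝ, Li A k cs → ∀ T θ : ℝ, 0 ≤ T → C ≤ Real.log (cnd N μ T) → 1 / 2 ≤ θ → θ ≤ 1 →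
      (∀ y : ℝ, |y - T| ≤ C * Real.log (cnd N μ T) →
        FewL (It (XX N Λ) cs) θ y (e' / 4 * Real.log (cnd N μ T))) →
      FewL Λ (θ + δ) T (η * Real.log (cnd N μ T)) := by
    intro N μ Λ ho hμ cs hcs T θ hT0 hcn hθ hθ1 hF
    obtain ⟨hN, -, -, -⟩ := ob_N ho
    obtain ⟨e1, e2, e3⟩ := hel N μ Λ ho T hcn
    obtain ⟨L, hL⟩ : ∃ L, L = Real.log (cnd N μ T) := ⟨_, rfl⟩
    rw [← hL] at hcn hF e2 e3 ⊢
    have hL1 : 1 ≤ L := by linarith
    have h4 := (HFQ (-12) (ff N Λ) (el N μ) (gg N μ) (hS N μ Λ ho hμ) cs (li_mono hA21 hcs) T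
      (θ - 1 / 2) e1 (by linarith) (by linarith)).1 (by linarith) (by
        intro y hy1 hy2
        rw [It_shift, ← fewL_shift]
        have h5 : C' * el N μ T ≤ C * L := by
          calc C' * el N μ T ≤ C' * ((1 + 10 * m) * L) := mul_le_mul_of_nonneg_left e3 (by linarith)
          _ = C' * (1 + 10 * m) * L := by ring
          _ ≤ C * L := mul_le_mul_of_nonneg_right (by rw [hC]; linarith) (by linarith)
        have h6 : 12 ≤ C * L := by
          have h7 : 12 ≤ C := by rw [hC]; linarith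
          nlinarith
        refine fewL_mono (hF y ?_) ?_
        · rw [abs_le]
          constructor <;> linarith
        · have h7 : e' * (L / 4) ≤ e' * el N μ T := mul_le_mul_of_nonneg_left e2 he'.le
          linarith)
    have h5 : Few (fun z => XX N Λ (1 / 2 + z)) (θ + δ - 1 / 2) T 1 (η / (1 + 10 * m) * el N μ T) := by
      rw [show θ + δ - 1 / 2 = θ - 1 / 2 + δ by ring]
      exact h4
    rw [← fewL_shift, fewL_XX (by linarith) (ob_diff ho)] at h5
    refine fewL_mono h5 ?_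
    calc η / (1 + 10 * m) * el N μ T ≤ η / (1 + 10 * m) * ((1 + 10 * m) * L) :=
          mul_le_mul_of_nonneg_left e3 (by positivity)
    _ = η * L := by field_simp
  intro N μ Λ ho hμ cs hcs T θ hcn hθ hθ1
  have hN := (ob_N ho).1
  have hΛ := ob_diff ho
  constructor
  · intro hF
    rcases le_total 0 T with h0 | h0
    · exact half N μ Λ ho hμ cs hcs T θ h0 hcn hθ hθ1 hF
    · have h4 := half N (fun j => conj (μ j)) (du Λ) (ob_du h2 ho) (hconjM μ hμ) cs hcs (-T) θ
        (by linarith) (by rw [cnd_du]; exact hcn) hθ hθ1 (by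
          intro y hy
          rw [cnd_du] at hy ⊢
          have h5 := fewL_conj (It_diff (XX_diff (by linarith) hΛ) cs) (hF (-y) (by
            have e : -y - T = -(y - -T) := by ring
            rwa [e, abs_neg]))
          rw [neg_neg] at h5
          rw [It_du (by linarith)]
          exact h5)
      rw [cnd_du] at h4
      have h5 := fewL_conj (ob_diff (ob_du h2 ho)) h4
      rw [neg_neg] at h5
      have h6 : (fun s => conj (du Λ (conj s))) = Λ := by
        funext s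
        unfold du
        rw [Complex.conj_conj, Complex.conj_conj]
      rwa [h6] at h5
  · intro hF
    obtain ⟨e1, e2, e3⟩ := hel N μ Λ ho T hcn
    obtain ⟨L, hL⟩ : ∃ L, L = Real.log (cnd N μ T) := ⟨_, rfl⟩
    rw [← hL] at hcn hF e2 e3 ⊢
    have hL1 : 1 ≤ L := by linarith
    have h4 := (HFQ (-12) (ff N Λ) (el N μ) (gg N μ) (hS N μ Λ ho hμ) cs (li_mono hA21 hcs) T
      (θ - 1 / 2) e1 (by linarith) (by linarith)).2 (by
        intro y hy
        have h6 : 12 ≤ C := by rw [hC]; linarith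
        have h7 : FewL (XX N Λ) θ y (e' / 4 * L) :=
          (fewL_XX (by linarith) hΛ).2 (hF y (hy.trans h6))
        rw [fewL_shift] at h7
        refine few_mono h7 ?_
        have h8 : e' * (L / 4) ≤ e' * el N μ T := mul_le_mul_of_nonneg_left e2 he'.le
        linarith)
    rw [It_shift, show θ - 1 / 2 + δ = θ + δ - 1 / 2 by ring, ← fewL_shift] at h4
    refine fewL_mono h4 ?_
    calc η / (1 + 10 * m) * el N μ T ≤ η / (1 + 10 * m) * ((1 + 10 * m) * L) :=
          mul_le_mul_of_nonneg_left e3 (by positivity)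
    _ = η * L := by field_simp

end Pool.Agent.Q211.BD.F2
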