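import Mathlib
import Pool.Agent.Q260.DS.Stm5

set_option autoImplicit false

/-!
# Project BD, job FQ: few zeros of the iterated derivative and of the function
-/

namespace Pool.Agent.Q211.BD

open Complex Filter Topology Metric Set
open Pool.Agent.Q260.DS

theorem few_nonneg {G : ℂ → ℂ} {θ T R x : ℝ} (h : Few G θ T R x) : 0 ≤ x := by
  have h1 := h ∅ (by simp)
  simpa using h1

theorem few_mono {G : ℂ → ℂ} {θ T R x x' : ℝ} (h : Few G θ T R x) (hx : x ≤ x') :
    Few G θ T R x' := fun Z hZ => (h Z hZ).trans hx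

/-- Windows of radius `1` to a window of radius `4`. -/
theorem few_four {G : ℂ → ℂ} {θ T x : ℝ} (h : ∀ y : ℝ, |y - T| ≤ 3 → Few G θ y 1 x) :
    Few G θ T 4 (4 * x) := by
  classical
  intro Z hZ
  have a1 := h (T - 3) (by rw [abs_le]; constructor <;> linarith)
    (Z.filter fun z => |z.im - (T - 3)| ≤ 1) (by
      intro z hz
      rw [Finset.mem_filter] at hz
      obtain ⟨b1, b2, b3, -⟩ := hZ z hz.1
      exact ⟨b1, b2, b3, hz.2⟩)
  have a2 := h (T - 1) (by rw [abs_le]; constructor <;> linarith)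
    (Z.filter fun z => |z.im - (T - 1)| ≤ 1) (by
      intro z hz
      rw [Finset.mem_filter] at hz
      obtain ⟨b1, b2, b3, -⟩ := hZ z hz.1
      exact ⟨b1, b2, b3, hz.2⟩)
  have a3 := h (T + 1) (by rw [abs_le]; constructor <;> linarith)
    (Z.filter fun z => |z.im - (T + 1)| ≤ 1) (by
      intro z hz
      rw [Finset.mem_filter] at hz
      obtain ⟨b1, b2, b3, -⟩ := hZ z hz.1
      exact ⟨b1, b2, b3, hz.2⟩)
  have a4 := h (T + 3) (by rw [abs_le]; constructor <;> linarith)
    (Z.filter fun z => |z.im - (T + 3)| ≤ 1) (by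
      intro z hz
      rw [Finset.mem_filter] at hz
      obtain ⟨b1, b2, b3, -⟩ := hZ z hz.1
      exact ⟨b1, b2, b3, hz.2⟩)
  rw [Finset.sum_filter] at a1 a2 a3 a4
  have key : ∑ z ∈ Z, (analyticOrderNatAt G z : ℝ) ≤
      (∑ z ∈ Z, if |z.im - (T - 3)| ≤ 1 then (analyticOrderNatAt G z : ℝ) else 0) +
      (∑ z ∈ Z, if |z.im - (T - 1)| ≤ 1 then (analyticOrderNatAt G z : ℝ) else 0) +
      (∑ z ∈ Z, if |z.im - (T + 1)| ≤ 1 then (analyticOrderNatAt G z : ℝ) else 0) +
      (∑ z ∈ Z, if |z.im - (T + 3)| ≤ 1 then (analyticOrderNatAt G z : ℝ) else 0) := by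
    rw [← Finset.sum_add_distrib, ← Finset.sum_add_distrib, ← Finset.sum_add_distrib]
    refine Finset.sum_le_sum fun z hz => ?_
    obtain ⟨-, -, -, b4⟩ := hZ z hz
    rw [abs_le] at b4
    have h0 : (0 : ℝ) ≤ (analyticOrderNatAt G z : ℝ) := Nat.cast_nonneg _
    have hn : ∀ p : Prop, [Decidable p] → (0 : ℝ) ≤ if p then (analyticOrderNatAt G z : ℝ) else 0 := by
      intro p _
      split_ifs
      · exact h0
      · exact le_rfl
    have n1 := hn (|z.im - (T - 3)| ≤ 1)
    have n2 := hn (|z.im - (T - 1)| ≤ 1)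
    have n3 := hn (|z.im - (T + 1)| ≤ 1)
    have n4 := hn (|z.im - (T + 3)| ≤ 1)
    by_cases c1 : z.im ≤ T - 2
    · have e1 : |z.im - (T - 3)| ≤ 1 := by
        rw [abs_le]
        constructor <;> linarith
      rw [if_pos e1] at n1 ⊢
      linarith
    by_cases c2 : z.im ≤ T
    · have e1 : |z.im - (T - 1)| ≤ 1 := by
        rw [abs_le]
        constructor <;> linarith
      rw [if_pos e1] at n2 ⊢
      linarith
    by_cases c3 : z.im ≤ T + 2
    · have e1 : |z.im - (T + 1)| ≤ 1 := by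
        rw [abs_le]
        constructor <;> linarith
      rw [if_pos e1] at n3 ⊢
      linarith
    · have e1 : |z.im - (T + 3)| ≤ 1 := by
        rw [abs_le]
        constructor <;> linarith
      rw [if_pos e1] at n4 ⊢
      linarith
  linarith

theorem log_small (K a b : ℝ) (hK : 0 ≤ K) (ha : 0 ≤ a) (hb : 0 ≤ b) : ∃ C : ℝ, 1 ≤ C ∧
    ∀ L : ℝ, C ≤ L → K * Real.log (a + b * L) ≤ L / 2 := by
  obtain ⟨c, hc⟩ : ∃ c, c = Real.log (a + b + 1) := ⟨_, rfl⟩
  have hc0 : 0 ≤ c := by
    rw [hc]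
    exact Real.log_nonneg (by linarith)
  obtain ⟨s0, hs0⟩ : ∃ s0, s0 = 4 * K + 2 * (K * c) + 1 := ⟨_, rfl⟩
  have hKc : 0 ≤ K * c := mul_nonneg hK hc0
  have hs1 : 1 ≤ s0 := by
    rw [hs0]
    linarith
  refine ⟨s0 ^ 2, by nlinarith, fun L hL => ?_⟩
  have hL1 : 1 ≤ L := by nlinarith
  obtain ⟨s, hs⟩ : ∃ s, s = Real.sqrt L := ⟨_, rfl⟩
  have hsL : s * s = L := by
    rw [hs]
    exact Real.mul_self_sqrt (by linarith)
  have hss : s0 ≤ s := by
    rw [hs]
    exact Real.le_sqrt_of_sq_le hL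
  have h1 : Real.log (a + b * L) ≤ c + 2 * s := by
    rcases eq_or_lt_of_le (show 0 ≤ a + b * L by nlinarith) with h0 | h0
    · rw [← h0, Real.log_zero]
      linarith
    have h2 : a + b * L ≤ (a + b + 1) * L := by nlinarith
    have h3 := Real.log_le_log h0 h2
    rw [Real.log_mul (by linarith) (by linarith), ← hc] at h3
    have h4 : Real.log L ≤ 2 * s := by
      rw [← hsL, Real.log_mul (by linarith) (by linarith)]
      have h5 := Real.log_le_sub_one_of_pos (show 0 < s by linarith)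
      linarith
    linarith
  have h2 : K * Real.log (a + b * L) ≤ K * (c + 2 * s) := mul_le_mul_of_nonneg_left h1 hK
  refine h2.trans ?_
  rw [← hsL]
  nlinarith

theorem t_FQ (h1 : S_FU) (h2 : S_UI) (h3 : S_CU) (h4 : S_UF) : S_FQ := by
  intro K A δ η k hK hA hδ hδ2 hη
  -- (a)
  obtain ⟨e1, C1, he1, hC1, F1⟩ := h4 K A (δ / 2) η 1 0 hK hA (by linarith) (by linarith) hη
    zero_le_one
  obtain ⟨e2, C2, he2, hC2, F2⟩ := h2 K A e1 k hK hA he1
  obtain ⟨n3, C3, hn3, hC3, F3⟩ := h1 K A e2 (δ / 2) k hK hA he2 (by linarith) (by linarith)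
  -- (b)
  obtain ⟨e4, C4, he4, hC4, F4⟩ := h4 K A (δ / 3) η 1 k hK hA (by linarith) (by linarith) hη
    zero_le_one
  obtain ⟨C5, hC5, F5⟩ := h3 K A (e4 / 2) (δ / 3) k hK hA (by linarith) (by linarith)
    (by linarith)
  obtain ⟨n6, C6, hn6, hC6, F6⟩ := h1 K A (e4 / 2) (δ / 3) 0 hK hA (by linarith) (by linarith)
    (by linarith)
  obtain ⟨C7, hC7, F7⟩ := log_small K 8 (2 * C2) (by linarith) (by norm_num) (by linarith)
  refine ⟨min (n3 / 8) (n6 / 8), C1 + 2 * C2 + 2 * C3 + C4 + 2 * C5 + 2 * C6 + C7 + 8, by positivity,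
    by linarith, ?_⟩
  intro y0 f l g hS cs hcs T θ hT h0 hθ
  obtain ⟨L, hL⟩ : ∃ L, L = l T := ⟨_, rfl⟩
  rw [← hL] at hT ⊢
  have hL1 : 1 ≤ L := by linarith
  have hnil : Li A 0 [] := ⟨rfl, by simp⟩
  have hlog := F7 L (by linarith)
  -- shift
  have hsh : ∀ y : ℝ, |y - T| ≤ 6 + 2 * C2 * L → |l y - L| ≤ L / 2 := by
    intro y hy
    have a1 := hS.shift T (y - T)
    rw [show T + (y - T) = y by ring, ← hL] at a1
    refine a1.trans (le_trans ?_ hlog)
    refine mul_le_mul_of_nonneg_left (Real.log_le_log ?_ ?_) (by linarith)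
    · have := abs_nonneg (y - T)
      linarith
    · linarith
  constructor
  · intro hyT hFew
    have hh := F1 y0 f l g hS [] hnil T (θ + δ / 2) (by rw [← hL]; linarith) (by linarith)
      (by linarith) ?_
    · rw [show θ + δ / 2 + δ / 2 = θ + δ by ring, ← hL] at hh
      exact hh
    intro y hy
    rw [abs_le] at hy
    have hC2L : L ≤ C2 * L := by nlinarith
    have hly := abs_le.1 (hsh y (by
      rw [abs_le]
      constructor <;> linarith))
    refine F2 y0 f l g hS cs hcs y (θ + δ / 2) (by linarith) (by linarith) (by linarith) ?_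
    intro u hu1 hu2
    have hly2 : C2 * l y ≤ C2 * (3 / 2 * L) := mul_le_mul_of_nonneg_left (by linarith) (by linarith)
    have hu3 : u - T ≤ 5 + 3 / 2 * (C2 * L) := by linarith
    have hlu := abs_le.1 (hsh u (by
      rw [abs_le]
      constructor <;> linarith))
    refine F3 y0 f l g hS cs hcs u θ (by linarith) h0 hθ (few_mono (few_four (x := min (n3 / 8) (n6 / 8) * L) ?_) ?_)
    · intro v hv
      rw [abs_le] at hv
      refine hFew v (by linarith) ?_
      obtain ⟨q, hq⟩ : ∃ q, q = C1 + 2 * C3 + C4 + 2 * C5 + 2 * C6 + C7 := ⟨_, rfl⟩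
      have hq0 : 0 ≤ q * L := mul_nonneg (by linarith) (by linarith)
      have a1 : (C1 + 2 * C2 + 2 * C3 + C4 + 2 * C5 + 2 * C6 + C7 + 8) * L =
          q * L + 2 * (C2 * L) + 8 * L := by
        rw [hq]
        ring
      rw [a1]
      linarith
    · have a1 : min (n3 / 8) (n6 / 8) ≤ n3 / 8 := min_le_left _ _
      have a2 : min (n3 / 8) (n6 / 8) * L ≤ n3 / 8 * L := mul_le_mul_of_nonneg_right a1 (by linarith)
      have a3 : n3 * (L / 2) ≤ n3 * l u := mul_le_mul_of_nonneg_left (by linarith) hn3.le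
      linarith
  · intro hFew
    have hh := F4 y0 f l g hS cs hcs T (θ + δ / 3 + δ / 3) (by rw [← hL]; linarith) (by linarith)
      (by linarith) ?_
    · rw [show θ + δ / 3 + δ / 3 + δ / 3 = θ + δ by ring, ← hL] at hh
      exact hh
    intro y hy
    rw [abs_le] at hy
    have hC2L : L ≤ C2 * L := by nlinarith
    have hly := abs_le.1 (hsh y (by
      rw [abs_le]
      constructor <;> linarith))
    have hh := F5 y0 f l g hS cs hcs y (θ + δ / 3) (by linarith) (by linarith) (by linarith) ?_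
    · rw [show 2 * (e4 / 2) = e4 by ring] at hh
      exact hh
    intro v hv
    rw [abs_le] at hv
    have hlv := abs_le.1 (hsh v (by
      rw [abs_le]
      constructor <;> linarith))
    refine F6 y0 f l g hS [] hnil v θ (by linarith) h0 hθ
      (few_mono (few_four (x := min (n3 / 8) (n6 / 8) * L) ?_) ?_)
    · intro w hw
      rw [abs_le] at hw
      refine hFew w ?_
      rw [abs_le]
      constructor <;> linarith
    · have a1 : min (n3 / 8) (n6 / 8) ≤ n6 / 8 := min_le_right _ _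
      have a2 : min (n3 / 8) (n6 / 8) * L ≤ n6 / 8 * L := mul_le_mul_of_nonneg_right a1 (by linarith)
      have a3 : n6 * (L / 2) ≤ n6 * l v := mul_le_mul_of_nonneg_left (by linarith) hn6.le
      linarith

end Pool.Agent.Q211.BD
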