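import Mathlib
import Pool.Agent.Q260.DJ.Bk
import Pool.Agent.Q24.DJ.LB

set_option autoImplicit false

/-!
# Project BD, job JU: few zeros give an upper bound
-/

namespace Pool.Agent.Q211.BD.JU

open Complex Filter Topology Metric Set
open Pool.Agent.Q260.DJ Pool.Agent.Q24.DJ
open Pool.Agent.Q260.DS (Few S_FB)
open Pool.Agent.H24R2.JP (HH XX FF gam jensen Hyperbolic Om Par xi)

theorem ord_div {G H : ℂ → ℂ} {z : ℂ} (hG : AnalyticAt ℂ G z) (hH : AnalyticAt ℂ H z)
    (h0 : H z ≠ 0) : analyticOrderNatAt (fun w => G w / H w) z = analyticOrderNatAt G z := by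
  have h1 : (fun w => G w / H w) = G * H⁻¹ := by
    funext w
    exact div_eq_mul_inv _ _
  have h2 : AnalyticAt ℂ H⁻¹ z := hH.inv h0
  have h3 : analyticOrderAt H⁻¹ z = 0 := by
    rw [h2.analyticOrderAt_eq_zero]
    exact inv_ne_zero h0
  unfold analyticOrderNatAt
  rw [h1, analyticOrderAt_mul hG h2, h3, add_zero]

theorem t_JU (h1 : S_HA) (_h2 : S_HB) (h3 : S_FB) : S_JU := by
  intro G hG ε δ hε hδ hδ1
  obtain ⟨hH, _⟩ := h1
  obtain ⟨Cr, Tr, hCr, hTr, hr⟩ := hG.right 1 7 (by norm_num) (by norm_num)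
  obtain ⟨A, Tg, hA, hTg, hg⟩ := hG.grow (-1 / 2) 7 (by norm_num) (by norm_num)
  obtain ⟨k, j, Cm, Tm, hCm, hTm, hm⟩ := hG.mass
  obtain ⟨A', hA'⟩ : ∃ A' : ℝ, A' = 2 * A + j + 1 := ⟨_, rfl⟩
  have hj : (0 : ℝ) ≤ j := j.cast_nonneg
  have hA1 : 1 ≤ A' := by rw [hA']; linarith
  obtain ⟨C0, hC0⟩ : ∃ C0 : ℝ, C0 = Cr + A' := ⟨_, rfl⟩
  have hC01 : 1 ≤ C0 := by rw [hC0]; linarith
  obtain ⟨η, M0, hη, hM0, hfb⟩ := h3 C0 ε δ hC01 hε hδ hδ1
  refine ⟨η, Tr + Tg + Tm + Cm + Real.exp M0 + 3, hη, ?_, ?_⟩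
  · have := Real.exp_pos M0
    linarith
  intro T θ hT hθ hθ1 hF x hx1 hx2
  have hexp := Real.exp_pos M0
  have b1 : Tr + 3 ≤ T := by linarith
  have b2 : Tg + 3 ≤ T := by linarith
  have b3 : Tm + 3 ≤ T := by linarith
  have b4 : Cm + 3 ≤ T := by linarith
  have hT6 : 6 ≤ T := by linarith
  have hL := one_le_log (T := T) (by linarith)
  have hLM : M0 ≤ Real.log T := by
    rw [Real.le_log_iff_exp_le (by linarith)]
    linarith
  obtain ⟨c, hc⟩ : ∃ c : ℂ, c = (3 : ℂ) + I * (T : ℂ) := ⟨_, rfl⟩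
  obtain ⟨ρ, hρ⟩ : ∃ ρ : ℝ, ρ = 3 - θ := ⟨_, rfl⟩
  obtain ⟨g, hgd⟩ : ∃ g : ℂ → ℂ, g = fun w => G w / HH w := ⟨_, rfl⟩
  -- points of the ball
  have hball : ∀ w ∈ closedBall c ρ, θ ≤ w.re ∧ w.re ≤ 6 ∧ |w.im - T| ≤ 3 := by
    intro w hw
    rw [mem_closedBall, dist_eq_norm, hc] at hw
    obtain ⟨q1, q2⟩ := near_cc hw
    have q3 := abs_le.1 q1
    refine ⟨by linarith [q3.1], by linarith [q3.2], by linarith⟩
  have hpos : ∀ w ∈ closedBall c ρ, T - 3 ≤ w.im ∧ w.im ≤ T + 3 := by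
    intro w hw
    have := abs_le.1 (hball w hw).2.2
    constructor <;> linarith [this.1, this.2]
  have hHne : ∀ w ∈ closedBall c ρ, AnalyticAt ℂ HH w ∧ HH w ≠ 0 := by
    intro w hw
    obtain ⟨p4, p5⟩ := hpos w hw
    exact hH w (by linarith)
  have hGan : ∀ w ∈ closedBall c ρ, AnalyticAt ℂ G w := by
    intro w hw
    obtain ⟨p4, p5⟩ := hpos w hw
    exact hG.an w (by linarith)
  have hgan : AnalyticOnNhd ℂ g (closedBall c ρ) := by
    intro w hw
    rw [hgd]
    exact (hGan w hw).div (hHne w hw).1 (hHne w hw).2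
  have hρ2 : 2 ≤ ρ := by rw [hρ]; linarith
  have hρ3 : ρ ≤ 3 := by rw [hρ]; linarith
  -- lower bound at the centre
  have hgc0 : ‖g c‖ = ‖G (3 + I * T)‖ / ‖HH (3 + I * T)‖ := by
    rw [hgd, hc]
    simp only [norm_div]
  have hgc : Real.exp (-((j + 1) * Real.log T)) ≤ ‖g c‖ := by
    have h3 := (hm T (by linarith)).1
    rw [hgc0]
    refine le_trans ?_ h3
    have h5 : Real.exp (-((j + 1) * Real.log T)) = 1 / T ^ j / T := by
      rw [Real.exp_neg, add_mul, Real.exp_add, one_mul, Real.exp_log (by linarith), mul_comm (j : ℝ),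
        ← Real.rpow_def_of_pos (by linarith), Real.rpow_natCast]
      field_simp
    rw [h5]
    have h6 : 1 ≤ Real.log T ^ k := one_le_pow₀ hL
    have h7 : 1 / T ^ j ≤ Real.log T ^ k / T ^ j :=
      div_le_div_of_nonneg_right h6 (by positivity)
    calc 1 / T ^ j / T ≤ 1 / T ^ j / Cm :=
          div_le_div_of_nonneg_left (by positivity) (by linarith) (by linarith)
      _ ≤ _ := div_le_div_of_nonneg_right h7 (by linarith)
  -- the upper bound
  have hup : ∀ w ∈ closedBall c ρ, ‖g w‖ ≤ Real.exp (C0 * Real.log T) * ‖g c‖ := by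
    intro w hw
    obtain ⟨p1, p2, p3⟩ := hball w hw
    obtain ⟨p4, p5⟩ := hpos w hw
    have h3 := hg w (by linarith) (by linarith) (by linarith)
    have h4 : ‖g w‖ ≤ Real.exp (A * Real.log w.im) := by
      rw [hgd]
      simp only [norm_div]
      rw [div_le_iff₀ (norm_pos_iff.2 (hHne w hw).2)]
      exact h3
    have h5 : Real.log w.im ≤ 2 * Real.log T := log_double hT6 (by linarith) (by linarith)
    have h6 : Real.exp (A * Real.log w.im) ≤ Real.exp (2 * A * Real.log T) := by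
      apply Real.exp_le_exp.2
      nlinarith
    calc ‖g w‖ ≤ Real.exp (2 * A * Real.log T) := h4.trans h6
      _ = Real.exp (A' * Real.log T) * Real.exp (-((j + 1) * Real.log T)) := by
          rw [← Real.exp_add, hA']
          congr 1
          ring
      _ ≤ Real.exp (C0 * Real.log T) * Real.exp (-((j + 1) * Real.log T)) := by
          refine mul_le_mul_of_nonneg_right (Real.exp_le_exp.2 ?_) (Real.exp_pos _).le
          refine mul_le_mul_of_nonneg_right ?_ (by linarith)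
          rw [hC0]
          linarith
      _ ≤ _ := mul_le_mul_of_nonneg_left hgc (Real.exp_pos _).le
  have hsmall : ∀ w ∈ closedBall c (5 / 4), g w ≠ 0 ∧ ‖logDeriv g w‖ ≤ C0 := by
    intro w hw
    have hwb : w ∈ closedBall c ρ := closedBall_subset_closedBall (by linarith) hw
    rw [mem_closedBall, dist_eq_norm, hc] at hw
    obtain ⟨q1, q2⟩ := near_cc hw
    have q3 := abs_le.1 q1
    have q4 := abs_le.1 q2
    obtain ⟨r1, r2⟩ := hr w (by linarith [q3.1]) (by linarith [q3.2]) (by linarith [q4.1])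
    have hld : logDeriv g w = logDeriv G w - logDeriv HH w := by
      rw [hgd]
      exact logDeriv_div w r1 (hHne w hwb).2 (hGan w hwb).differentiableAt
        (hHne w hwb).1.differentiableAt
    refine ⟨?_, ?_⟩
    · rw [hgd]
      exact div_ne_zero r1 (hHne w hwb).2
    · rw [hld]
      refine r2.trans ?_
      rw [hC0]
      linarith
  have hzer : ∀ Z : Finset ℂ, (∀ z ∈ Z, g z = 0 ∧ z ∈ closedBall c ρ) →
      ∑ z ∈ Z, (analyticOrderNatAt g z : ℝ) ≤ η * Real.log T := by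
    intro Z hZ
    have h4 := hF Z (by
      intro z hz
      obtain ⟨z1, z2⟩ := hZ z hz
      obtain ⟨p1, p2, p3⟩ := hball z z2
      obtain ⟨p4, p5⟩ := hpos z z2
      have hG0 : G z = 0 := by
        rw [hgd] at z1
        exact (div_eq_zero_iff.1 z1).resolve_right (hHne z z2).2
      refine ⟨hG0, p1, ?_, by linarith⟩
      by_contra hcon
      push Not at hcon
      exact (hr z (by linarith) (by linarith) (by linarith)).1 hG0)
    refine le_trans (le_of_eq (Finset.sum_congr rfl fun z hz => ?_)) h4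
    obtain ⟨z1, z2⟩ := hZ z hz
    rw [hgd, ord_div (hGan z z2) (hHne z z2).1 (hHne z z2).2]
  obtain ⟨z, hzd⟩ : ∃ z : ℂ, z = (x : ℂ) + I * (T : ℂ) := ⟨_, rfl⟩
  have hzc : ‖z - c‖ ≤ ρ - δ := by
    have e : z - c = ((x - 3 : ℝ) : ℂ) := by
      rw [hzd, hc]
      push_cast
      ring
    rw [e, Complex.norm_real, Real.norm_eq_abs, abs_le, hρ]
    constructor <;> linarith
  have hzb : z ∈ closedBall c ρ := by
    rw [mem_closedBall, dist_eq_norm]
    linarith
  have hfin := hfb g c ρ (Real.log T) hρ2 hρ3 hLM hgan hup hsmall hzer z hzc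
  rw [hgc0] at hfin
  have h5 : ‖g z‖ = ‖G z‖ / ‖HH z‖ := by
    rw [hgd]
    simp only [norm_div]
  rw [h5, div_le_iff₀ (norm_pos_iff.2 (hHne z hzb).2)] at hfin
  rw [← hzd]
  refine hfin.trans (le_of_eq ?_)
  ring

end Pool.Agent.Q211.BD.JU
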